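import Pool.Agent.CPT.StmtsA
import Pool.Agent.BSH.Stmts

/-!
# CPT row HBF: Hilbert function of a computation in finitely many variables
-/

set_option autoImplicit false

open MvPolynomial

namespace Pool.Agent.CPT.H10

open Pool.Agent.BSH

theorem hbf (h1 : Pool.Agent.BSH.HbdStmt) (h2 : Pool.Agent.BSH.MapStmt) : HbfStmt := by
  intro E _ n l hch D
  obtain ⟨B', hB'⟩ : ∃ B' : Set (MvPolynomial ℕ E),
    B' = vs E n ∪ {x | x ∈ ([] : List (MvPolynomial ℕ E))} := ⟨_, rfl⟩
  have hmap := h2 E (MvPolynomial (Fin n) E) (MvPolynomial ℕ E)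
    (rename Fin.val : MvPolynomial (Fin n) E →ₐ[E] MvPolynomial ℕ E) (Set.range X) B' l [] hch
    trivial (by
      rintro x ⟨i, rfl⟩
      rw [rename_X]
      refine Submodule.subset_span (Or.inl (Or.inr ?_))
      rw [hB']
      exact Or.inl ⟨i, i.2, rfl⟩)
  rw [List.append_nil] at hmap
  obtain ⟨hch2, hmem⟩ := hmap
  have hd := h1 E n 1 [] (l.map (rename Fin.val : MvPolynomial (Fin n) E →ₐ[E] MvPolynomial ℕ E))
    le_rfl (by intro u hu; simp at hu) (by rw [← hB']; exact hch2) D
  rw [← hB', List.length_map, List.length_nil, pow_zero, one_mul] at hd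
  refine le_trans ?_ hd
  have hinj : Function.Injective
      (rename Fin.val : MvPolynomial (Fin n) E →ₐ[E] MvPolynomial ℕ E).toLinearMap :=
    rename_injective _ Fin.val_injective
  have hfin0 : (vs E n).Finite := by
    have h : vs E n ⊆ (fun i : ℕ => (X i : MvPolynomial ℕ E)) '' Set.Iio n := by
      rintro x ⟨i, hi, rfl⟩
      exact ⟨i, hi, rfl⟩
    exact ((Set.finite_Iio n).image _).subset h
  have hB'fin : B'.Finite := by
    rw [hB']
    exact hfin0.union (List.finite_toSet _)
  have hfin : Module.Finite E (sp E B'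
      (l.map (rename Fin.val : MvPolynomial (Fin n) E →ₐ[E] MvPolynomial ℕ E))) := by
    have h : ({1} ∪ B' ∪ {x | x ∈ (l.map
        (rename Fin.val : MvPolynomial (Fin n) E →ₐ[E] MvPolynomial ℕ E))} :
        Set (MvPolynomial ℕ E)).Finite :=
      ((Set.finite_singleton 1).union hB'fin).union (List.finite_toSet _)
    exact Module.Finite.span_of_finite E h
  have hfin2 : Module.Finite E ((sp E B'
      (l.map (rename Fin.val : MvPolynomial (Fin n) E →ₐ[E] MvPolynomial ℕ E))) ^ D :
      Submodule E (MvPolynomial ℕ E)) :=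
    Module.Finite.iff_fg.mpr ((Module.Finite.iff_fg.mp hfin).pow D)
  have hle : (sp E (Set.range X) l).map
      (rename Fin.val : MvPolynomial (Fin n) E →ₐ[E] MvPolynomial ℕ E).toLinearMap ≤
      sp E B' (l.map (rename Fin.val : MvPolynomial (Fin n) E →ₐ[E] MvPolynomial ℕ E)) := by
    rintro y ⟨x, hx, rfl⟩
    exact hmem x hx
  have hle2 : ((sp E (Set.range X) l) ^ D).map
      (rename Fin.val : MvPolynomial (Fin n) E →ₐ[E] MvPolynomial ℕ E).toLinearMap ≤
      (sp E B' (l.map (rename Fin.val : MvPolynomial (Fin n) E →ₐ[E] MvPolynomial ℕ E))) ^ D := by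
    rw [Submodule.map_pow]
    exact pow_le_pow_left' hle D
  rw [(Submodule.equivMapOfInjective _ hinj ((sp E (Set.range X) l) ^ D)).finrank_eq]
  exact Submodule.finrank_mono hle2

end Pool.Agent.CPT.H10
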