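import Mathlib
import Pool.Agent.CPT.StmtsC

set_option autoImplicit false

/-! Squad CPT, row NMB: the number of the points. -/

namespace Pool.Agent.CPT.H10

open Pool.Agent.CPT

theorem nmb_len (n s : ℕ) :
    (prs n s).length = (n * (2 * s + 1) ^ 2 + 1) * (pts (2 * s + 1) (8 ^ s)).length := by
  unfold prs
  rw [List.length_flatMap]
  have h : (List.map (fun t : ℕ => (List.map (fun c => (t, c)) (pts (2 * s + 1) (8 ^ s))).length)
      (List.range (n * (2 * s + 1) ^ 2 + 1))) =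
      List.replicate (n * (2 * s + 1) ^ 2 + 1) (pts (2 * s + 1) (8 ^ s)).length := by
    rw [List.eq_replicate_iff]
    refine ⟨by rw [List.length_map, List.length_range], ?_⟩
    intro b hb
    obtain ⟨t, -, rfl⟩ := List.mem_map.mp hb
    rw [List.length_map]
  rw [h, List.sum_replicate, smul_eq_mul]

theorem nmb (h : PtsStmt) : NmbStmt := by
  intro n s
  obtain ⟨h1, h2⟩ := h
  have hK : 1 ≤ 8 ^ s := Nat.one_le_pow _ _ (by norm_num)
  have hmem : ∀ (t : ℕ) (c : Fin (2 * s + 1) → ℕ), (t, c) ∈ prs n s ↔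
      t ≤ n * (2 * s + 1) ^ 2 ∧ ∏ i, max 1 (c i) ≤ 8 ^ s := by
    intro t c
    unfold prs
    rw [List.mem_flatMap]
    constructor
    · rintro ⟨a, ha, hb⟩
      rw [List.mem_map] at hb
      obtain ⟨c', hc', he⟩ := hb
      obtain ⟨ea, ec⟩ := Prod.mk.inj he
      subst ea ec
      exact ⟨Nat.lt_succ_iff.mp (List.mem_range.mp ha), (h1 _ _ _ hK).mp hc'⟩
    · rintro ⟨ha, hb⟩
      exact ⟨t, List.mem_range.mpr (Nat.lt_succ_of_le ha),
        List.mem_map.mpr ⟨c, (h1 _ _ _ hK).mpr hb, rfl⟩⟩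
  refine ⟨hmem, ?_, ?_⟩
  · have h0 : ((0 : ℕ), (fun _ => 0 : Fin (2 * s + 1) → ℕ)) ∈ prs n s :=
      (hmem _ _).mpr ⟨Nat.zero_le _, by simpa using hK⟩
    exact List.length_pos_of_mem h0
  · rw [nmb_len]
    apply Nat.mul_le_mul_left
    calc (pts (2 * s + 1) (8 ^ s)).length ≤ (8 ^ s) ^ 2 * 3 ^ (2 * s + 1) := h2 _ _ hK
      _ = 3 * 576 ^ s := by
        have e1 : (576 : ℕ) ^ s = (8 ^ s) ^ 2 * (3 ^ s) ^ 2 := by
          rw [← pow_mul, ← pow_mul, mul_comm s 2, pow_mul, pow_mul, ← mul_pow]; norm_num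
        rw [e1, pow_succ, ← pow_mul 3 s 2, mul_comm s 2]
        ring

end Pool.Agent.CPT.H10
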